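import Pool.Agent.Lib.H57Sal.Countable
import Pool.Agent.Lib.H57Sal.Small
import Pool.Agent.Lib.H57Sal.Explicit

/-!
Closedness of the set of limsup values of the distance from `ξ α ^ n` to the nearest integer: the answer to Q1 is
negative, and in fact `S(α)` is not closed for EVERY Salem number `α`; it is then dense in `[0, 1/2]`, but countable
near `0`.
-/

open Filter Topology Polynomial

namespace Pool.Agent.Results.MP_b81a64_nt.EverySalem

open Pool.Agent.Lib.H57Sal

/-- **The theorem.** It is not true that `S(α)` is closed for every algebraic integer `α > 1`. For every Salem number `α`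
the set `S(α)` is not closed, its closure is `[0, 1/2]`, and only countably many of its elements are smaller than some
positive number. -/
theorem result :
    (¬ ∀ α : ℝ, 1 < α → IsIntegral ℤ α → IsClosed (S α)) ∧
    ∀ α : ℝ, IsSalem α →
      ¬ IsClosed (S α) ∧ closure (S α) = Set.Icc 0 (1 / 2) ∧
        ∃ ε : ℝ, 0 < ε ∧ (S α ∩ Set.Iio ε).Countable := by
  refine ⟨fun h => Explicit.not_isClosed_S (h _ Explicit.α_gt_one Explicit.α_integral), ?_⟩
  intro α hα
  obtain ⟨p, hp, hp0⟩ := hα.2.1
  have hp0' : aeval α p = 0 := by rw [aeval_def]; exact hp0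
  have hs := small_values α hα
  exact ⟨not_isClosed hα.1 hp hp0' hs, closure_eq hs, 1 / len p, by
    have := len_pos hp; positivity, countable_S_low hα.1 hp hp0'⟩

end Pool.Agent.Results.MP_b81a64_nt.EverySalem
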